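import Pool.Agent.Helper39.SL.Link

/-!
# T5, block SL: decoding from `Pr.Ok`, and passage from labels to an enumeration of the targets
-/

namespace Pool.Agent.Helper39.SL

open Finset Pool.Agent.Helper27.T4 Pool.Agent.Helper29.T4 Pool.Agent.Helper22.HW
  Pool.Agent.Helper22.SL Pool.Agent.Helper57.T5

variable {κ : Type*} {Mk : κ → ℕ} {P : Pr κ}

/-- the static codes decode -/
theorem dec_level (hP : P.Ok Mk) (w : κ → ℕ) {r : ℕ} (hr : r < P.h) :
    Dec (P.Y r) (P.Y r) (cU hP w r) (cU' hP w r) (P.Q r) (∏ i, (2 * (P.p r i - 1))) := by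
  have h := hP.sok r hr
  have h' := hP.sok' r hr
  exact Pool.Agent.Helper73.T5.dec_sadm (hP.prime r) (hP.odd r) (hP.inj r) (P.S r).F (P.S' r).F
    h.cop h'.cop rk3
    (P.S r).e (P.S' r).e (P.z r) (fun _ => le_rfl) (fun _ => le_rfl) ((P.S r).rho w)
    ((P.S' r).rho w) (h.rho_dep w) (h'.rho_dep w) (P.Y r) (hP.adm r)

/-- product of the decoding constants -/
noncomputable def Cd (P : Pr κ) : ℕ := ∏ r ∈ range P.h, ∏ i, (2 * (P.p r i - 1))

/-- the leaf bound with the decoding built in -/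
theorem leaf_bound' (hP : P.Ok Mk) (w : κ → ℕ) {R0 : ℕ} {B B' U U' : Finset ℕ}
    (hU : Rep P (cU hP w) P.M B U) (hU' : Rep P (cU' hP w) P.M' B' U')
    (hR0 : ∀ n, ((B ×ˢ B').filter
      (fun t => P.M * P.L P.h * t.1 + P.M' * P.L P.h * t.2 = n)).card ≤ R0) (n : ℕ) :
    ((U ×ˢ U').filter (fun t => t.1 + t.2 = n)).card ≤ Cd P * R0 :=
  leaf_bound hP w hU hU' (fun _ hr => dec_level hP w hr) hR0 n

/-- the value of the target of a class -/
def tv (m D κ₂ n c : ℕ) : ℕ := n - m * (c + κ₂ * D)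

/-- the classes which give a target -/
def cls (I m D κ₂ n : ℕ) (cl : ℕ → ℕ) : Finset ℕ :=
  ((range I).image (fun i => cl i % D)).filter (fun c => m * (c + κ₂ * D) ≤ n)

/-- increasing enumeration of a finite set -/
noncomputable def enu (S : Finset ℕ) (i : ℕ) : ℕ :=
  if h : i < S.card then S.orderEmbOfFin rfl ⟨i, h⟩ else 0

theorem enu_mem (S : Finset ℕ) {i : ℕ} (h : i < S.card) : enu S i ∈ S := by
  unfold enu
  rw [dif_pos h]
  exact Finset.orderEmbOfFin_mem _ _ _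

theorem enu_inj (S : Finset ℕ) {i j : ℕ} (hi : i < S.card) (hj : j < S.card)
    (h : enu S i = enu S j) : i = j := by
  unfold enu at h
  rw [dif_pos hi, dif_pos hj] at h
  exact congrArg Fin.val ((S.orderEmbOfFin rfl).injective h)

theorem enu_surj (S : Finset ℕ) {x : ℕ} (hx : x ∈ S) : ∃ i < S.card, enu S i = x := by
  have h1 : x ∈ Set.range (S.orderEmbOfFin rfl) := by
    rw [Finset.range_orderEmbOfFin]
    exact hx
  obtain ⟨i, rfl⟩ := h1
  exact ⟨i.1, i.2, by unfold enu; rw [dif_pos i.2]⟩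

/-- number of the targets -/
def nT (I m D κ₂ n : ℕ) (cl : ℕ → ℕ) : ℕ := (cls I m D κ₂ n cl).card

/-- the targets; they depend only on the classes `cl i % D` -/
noncomputable def XT (I m D κ₂ n : ℕ) (cl : ℕ → ℕ) (i : ℕ) : ℕ :=
  tv m D κ₂ n (enu (cls I m D κ₂ n cl) i)

theorem cls_congr {I m D κ₂ n : ℕ} {cl cl' : ℕ → ℕ} (h : ∀ i < I, cl i % D = cl' i % D) :
    cls I m D κ₂ n cl = cls I m D κ₂ n cl' := by
  unfold cls
  rw [Finset.image_congr (fun i hi => h i (mem_range.1 (mem_coe.1 hi)))]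

theorem nT_le (I m D κ₂ n : ℕ) (cl : ℕ → ℕ) : nT I m D κ₂ n cl ≤ I := by
  calc nT I m D κ₂ n cl ≤ ((range I).image (fun i => cl i % D)).card := card_filter_le _ _
    _ ≤ (range I).card := card_image_le
    _ = I := card_range I

theorem XT_le (I m D κ₂ n : ℕ) (cl : ℕ → ℕ) (i : ℕ) : XT I m D κ₂ n cl i ≤ n := Nat.sub_le _ _

/-- **passage from the labels to the targets** -/
theorem cN_le (U U' : Finset ℕ) {I m D κ₂ n C1 : ℕ} (cl : ℕ → ℕ)
    (hC1 : ∀ c, ((range I).filter (fun i => cl i % D = c)).card ≤ C1) :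
    cN U U' I m D cl κ₂ n ≤ C1 * ((range (nT I m D κ₂ n cl) ×ˢ (U ×ˢ U')).filter
        (fun t => t.2.1 + t.2.2 = XT I m D κ₂ n cl t.1)).card := by
  classical
  set 𝒳 := cls I m D κ₂ n cl with h𝒳
  have hsurj : ∀ x ∈ 𝒳, ∃ i < 𝒳.card, enu 𝒳 i = x := fun x hx => enu_surj 𝒳 hx
  choose! g hg using hsurj
  unfold cN
  refine Finset.card_le_mul_card_image_of_maps_to
    (f := fun t : ℕ × (ℕ × ℕ) => ((g (cl t.1 % D), t.2) : ℕ × (ℕ × ℕ))) ?_ C1 ?_
  · rintro ⟨i, u, u'⟩ ht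
    simp only [mem_filter, mem_product, mem_range] at ht ⊢
    obtain ⟨⟨hi, hu, hu'⟩, he⟩ := ht
    have hx : cl i % D ∈ 𝒳 := by
      rw [h𝒳, cls, mem_filter, mem_image]
      exact ⟨⟨i, mem_range.2 hi, rfl⟩, by omega⟩
    obtain ⟨h1, h2⟩ := hg _ hx
    refine ⟨⟨h1, hu, hu'⟩, ?_⟩
    show u + u' = tv m D κ₂ n (enu 𝒳 (g (cl i % D)))
    rw [h2]
    unfold tv
    omega
  · rintro ⟨j, u, u'⟩ _
    rcases Finset.eq_empty_or_nonempty (((range I ×ˢ (U ×ˢ U')).filter (fun t =>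
      t.2.1 + t.2.2 + m * (cl t.1 % D + κ₂ * D) = n)).filter (fun t : ℕ × (ℕ × ℕ) =>
        ((g (cl t.1 % D), t.2) : ℕ × (ℕ × ℕ)) = (j, (u, u')))) with h0 | ⟨t0, ht0⟩
    · rw [h0]; simp
    · refine le_trans (card_le_card_of_injOn (fun t : ℕ × (ℕ × ℕ) => t.1) ?_ ?_)
        (hC1 (cl t0.1 % D))
      · intro t ht
        simp only [coe_filter, mem_filter, mem_product, mem_range, Set.mem_ofPred_eq,
          Prod.mk.injEq] at ht ht0 ⊢
        refine ⟨ht.1.1.1, ?_⟩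
        have hx : cl t.1 % D ∈ 𝒳 := by
          rw [h𝒳, cls, mem_filter, mem_image]
          exact ⟨⟨t.1, mem_range.2 ht.1.1.1, rfl⟩, by omega⟩
        have hx0 : cl t0.1 % D ∈ 𝒳 := by
          rw [h𝒳, cls, mem_filter, mem_image]
          exact ⟨⟨t0.1, mem_range.2 ht0.1.1.1, rfl⟩, by omega⟩
        rw [← (hg _ hx).2, ← (hg _ hx0).2, ht.2.1, ht0.2.1]
      · intro t ht t' ht' h
        simp only [coe_filter, mem_filter, Set.mem_ofPred_eq, Prod.mk.injEq] at ht ht'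
        exact Prod.ext h (ht.2.2.trans ht'.2.2.symm)

theorem F_dvd_F0 (hP : P.Ok Mk) {r : ℕ} (hr : r ≤ P.h) : P.F r ∣ P.F 0 := by
  induction r with
  | zero => exact dvd_rfl
  | succ r ih => exact (hP.FF r hr).trans (ih (by omega))

/-- targets in one class modulo `F' r` come from classes which agree modulo `F' r / M'` -/
theorem class_eq (hP : P.Ok Mk) {D κ₂ n r a b : ℕ} (hr : r ≤ P.h)
    (ha : P.M' * P.L0 * (a + κ₂ * D) ≤ n) (hb : P.M' * P.L0 * (b + κ₂ * D) ≤ n)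
    (h : tv (P.M' * P.L0) D κ₂ n a % P.F' r = tv (P.M' * P.L0) D κ₂ n b % P.F' r) :
    a % (P.F' r / P.M') = b % (P.F' r / P.M') := by
  obtain ⟨f, hf⟩ := hP.M'F' r hr
  have hM' := hP.posM'
  have hdiv : P.F' r / P.M' = f := by rw [hf, Nat.mul_div_cancel_left _ hM']
  rw [hdiv]
  have hF0 : P.F' r ∣ P.F 0 := (hP.F'F r hr).trans (F_dvd_F0 hP hr)
  have hcop : Nat.Coprime P.L0 f := by
    have h1 := hP.copL 0 (Nat.zero_le _)
    rw [L_zero] at h1
    exact (h1.coprime_dvd_right hF0).coprime_dvd_right (by rw [hf]; exact dvd_mul_left _ _)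
  have h1 : (n - P.M' * P.L0 * (a + κ₂ * D)) + P.M' * P.L0 * (a + κ₂ * D) ≡
      (n - P.M' * P.L0 * (b + κ₂ * D)) + P.M' * P.L0 * (b + κ₂ * D) [MOD P.F' r] := by
    rw [Nat.sub_add_cancel ha, Nat.sub_add_cancel hb]
  have h2 : P.M' * P.L0 * (a + κ₂ * D) ≡ P.M' * P.L0 * (b + κ₂ * D) [MOD P.F' r] :=
    Nat.ModEq.add_left_cancel (show tv (P.M' * P.L0) D κ₂ n a ≡ tv (P.M' * P.L0) D κ₂ n b
      [MOD P.F' r] from h) h1
  rw [hf, mul_assoc, mul_assoc] at h2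
  have h3 : P.L0 * (a + κ₂ * D) ≡ P.L0 * (b + κ₂ * D) [MOD f] :=
    Nat.ModEq.mul_left_cancel' hM'.ne' h2
  have h4 : a + κ₂ * D ≡ b + κ₂ * D [MOD f] := Nat.ModEq.cancel_left_of_coprime
    (by rw [Nat.gcd_comm]; exact hcop) h3
  exact Nat.ModEq.add_right_cancel' _ h4

/-- the targets satisfy the requirements `Tg` -/
theorem tg_XT (hP : P.Ok Mk) {I D κ₂ n : ℕ} {cl : ℕ → ℕ} {Ir : ℕ → ℕ}
    (hD : 0 < D) (hF0 : P.F 0 = P.M' * D) (hn : P.M' * P.L0 ∣ n)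
    (hIr : ∀ r ≤ P.h, ∀ c, (((range I).image (fun i => cl i % D)).filter
      (fun x => x % (P.F' r / P.M') = c % (P.F' r / P.M'))).card ≤ Ir r) :
    Tg P (nT I (P.M' * P.L0) D κ₂ n cl) (XT I (P.M' * P.L0) D κ₂ n cl) Ir := by
  classical
  set m := P.M' * P.L0 with hm
  set 𝒳 := cls I m D κ₂ n cl with h𝒳
  have hmpos : 0 < m := Nat.mul_pos hP.posM' hP.posL
  have hc : ∀ i < 𝒳.card, enu 𝒳 i ∈ 𝒳 := fun i hi => enu_mem 𝒳 hi
  have hinj : ∀ i < 𝒳.card, ∀ j < 𝒳.card, enu 𝒳 i = enu 𝒳 j → i = j :=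
    fun i hi j hj h => enu_inj 𝒳 hi hj h
  have hcle : ∀ i < 𝒳.card, m * (enu 𝒳 i + κ₂ * D) ≤ n := fun i hi => (mem_filter.1 (hc i hi)).2
  have hclt : ∀ i < 𝒳.card, enu 𝒳 i < D := by
    intro i hi
    have h1 := (mem_filter.1 (hc i hi)).1
    rw [mem_image] at h1
    obtain ⟨a, _, ha⟩ := h1
    rw [← ha]
    exact Nat.mod_lt _ hD
  have hmD : P.F 0 * P.L0 = m * D := by rw [hF0, hm]; ring
  refine ⟨?_, ?_, ?_, ?_⟩
  · intro i hi
    show m ∣ n - m * (enu 𝒳 i + κ₂ * D)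
    exact Nat.dvd_sub hn (dvd_mul_right _ _)
  · intro i hi j hj h
    apply hinj i hi j hj
    have h1 := hcle i hi
    have h2 := hcle j hj
    have h0 : n - m * (enu 𝒳 i + κ₂ * D) = n - m * (enu 𝒳 j + κ₂ * D) := h
    have h3 : m * (enu 𝒳 i + κ₂ * D) = m * (enu 𝒳 j + κ₂ * D) := by omega
    have h4 := Nat.eq_of_mul_eq_mul_left hmpos h3
    omega
  · intro i hi j hj
    show n - m * (enu 𝒳 i + κ₂ * D) < n - m * (enu 𝒳 j + κ₂ * D) + P.F 0 * P.L0
    have h1 := hcle i hi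
    have h2 := hcle j hj
    rw [hmD]
    have h3 : m * (enu 𝒳 j + κ₂ * D) < m * (enu 𝒳 i + κ₂ * D) + m * D := by
      rw [← Nat.mul_add]
      apply Nat.mul_lt_mul_of_pos_left _ hmpos
      have := hclt j hj
      omega
    omega
  · intro r hr x
    set G := (range (nT I m D κ₂ n cl)).filter
      (fun i => XT I m D κ₂ n cl i % P.F' r = x % P.F' r) with hG
    rcases Finset.eq_empty_or_nonempty G with h0 | ⟨i0, hi0⟩
    · rw [h0]; simp
    · have hi0' := mem_filter.1 hi0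
      have hi0I := mem_range.1 hi0'.1
      refine le_trans (card_le_card_of_injOn (enu 𝒳) ?_ ?_) (hIr r hr (enu 𝒳 i0))
      · intro i hi
        rw [mem_coe, hG, mem_filter, mem_range] at hi
        rw [coe_filter, Set.mem_ofPred_eq]
        refine ⟨(mem_filter.1 (hc i hi.1)).1, ?_⟩
        exact class_eq hP hr (hcle i hi.1) (hcle i0 hi0I) (hi.2.trans hi0'.2.symm)
      · intro i hi j hj h
        rw [mem_coe, hG, mem_filter, mem_range] at hi hj
        exact hinj i hi.1 j hj.1 h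

/-- **S16 LINK.**  If there are not `N` hits with different labels for the enumerated targets,
the counting form is at most `C1 * (N * (Cd * R0))`. -/
theorem link (hP : P.Ok Mk) (w : κ → ℕ) {I D κ₂ n C1 R0 N : ℕ} {cl : ℕ → ℕ}
    {B B' U U' : Finset ℕ} (hU : Rep P (cU hP w) P.M B U) (hU' : Rep P (cU' hP w) P.M' B' U')
    (hC1 : ∀ c, ((range I).filter (fun i => cl i % D = c)).card ≤ C1)
    (hR0 : ∀ n, ((B ×ˢ B').filter
      (fun t => P.M * P.L P.h * t.1 + P.M' * P.L P.h * t.2 = n)).card ≤ R0)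
    (hN : ¬ Many P w (nT I (P.M' * P.L0) D κ₂ n cl) (XT I (P.M' * P.L0) D κ₂ n cl) B B' N) :
    cN U U' I (P.M' * P.L0) D cl κ₂ n ≤ C1 * (N * (Cd P * R0)) :=
  (cN_le U U' cl hC1).trans (Nat.mul_le_mul_left _
    (link_count hP w hU hU' (leaf_bound' hP w hU hU' hR0) hN))

/-- the elements of a tower of `h` levels over the windows `B` -/
noncomputable def tow (P : Pr κ) (c : ℕ → (Fin 3 → ℕ) → ℕ) (M : ℕ) (B : Finset ℕ) : Finset ℕ :=
  ((Fintype.piFinset (fun t : Fin P.h => P.Y t)) ×ˢ B).image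
    (fun q => ∑ t : Fin P.h, c t (q.1 t) + M * P.L P.h * q.2)

theorem rep_tow (P : Pr κ) (c : ℕ → (Fin 3 → ℕ) → ℕ) (M : ℕ) (B : Finset ℕ) :
    Rep P c M B (tow P c M B) := by
  intro u hu
  unfold tow at hu
  rw [mem_image] at hu
  obtain ⟨⟨y, b⟩, hq, rfl⟩ := hu
  rw [mem_product, Fintype.mem_piFinset] at hq
  refine ⟨fun t => if h : t < P.h then y ⟨t, h⟩ else 0, ?_, b, hq.2, ?_⟩
  · intro r hr
    simp only [dif_pos hr]
    exact hq.1 ⟨r, hr⟩
  · simp only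
    congr 1
    rw [Finset.sum_range]
    refine Finset.sum_congr rfl (fun t _ => ?_)
    simp

theorem Rep.mono {c : ℕ → (Fin 3 → ℕ) → ℕ} {M : ℕ} {B B1 U U1 : Finset ℕ} (h : Rep P c M B U)
    (hB : B ⊆ B1) (hU : U1 ⊆ U) : Rep P c M B1 U1 := by
  intro u hu
  obtain ⟨y, hy, b, hb, he⟩ := h u (hU hu)
  exact ⟨y, hy, b, hB hb, he⟩

end Pool.Agent.Helper39.SL
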