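import Pool.Agent.Helper39.SL.Reidx
import Pool.Agent.Helper22.SL.Static

/-!
# T5, block SL: union over the contexts (SL-U)
-/

namespace Pool.Agent.Helper39.SL

open Finset Pool.Agent.Helper27.T4 Pool.Agent.Helper29.T4 Pool.Agent.Helper22.HW
  Pool.Agent.Helper22.SL Pool.Agent.Helper57.T5

variable {κ : Type*} {Mk : κ → ℕ} {P : Pr κ}

/-- `Many` depends only on the keys of the admissible vectors -/
theorem many_congr {w w' : κ → ℕ} {I N : ℕ} {X : ℕ → ℕ} {B B' : Finset ℕ}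
    (hw : ∀ r < P.h, ∀ i, ∀ y ∈ P.Y r, w' (P.key r i y) = w (P.key r i y) ∧
      w' (P.key' r i y) = w (P.key' r i y))
    (h : Many P w I X B B' N) : Many P w' I X B B' N := by
  obtain ⟨H, hc, hh, hl⟩ := h
  refine ⟨H, hc, fun x hx => ?_, hl⟩
  obtain ⟨h1, h2, h3, h4, h5⟩ := hh x hx
  refine ⟨h1, fun t ht => ?_, h3, h4, h5⟩
  obtain ⟨a1, a2, a3, a4, a5, a6, a7, a8, a9, a10⟩ := h2 t ht
  refine ⟨a1, a2, a3, a4, a5, a6, fun i hi => ?_, fun i hi => ?_, a9, a10⟩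
  · rw [(hw t ht i _ a1).1]; exact a7 i hi
  · rw [(hw t ht i _ a2).2]; exact a8 i hi

theorem Pr.A_nonneg (P : Pr κ) (r : ℕ) : 0 ≤ P.A r :=
  Finset.prod_nonneg (fun _ _ => by positivity)

variable [DecidableEq κ]

/-- **Union over contexts, windows fixed.** -/
theorem many_union (hP : P.Ok Mk) (hMk : ∀ k, 0 < Mk k) {K : Finset κ}
    (hK : ∀ r < P.h, ∀ i, ∀ y ∈ P.Y r, P.key r i y ∈ K ∧ P.key' r i y ∈ K) (B B' : Finset ℕ)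
    {ι : Type*} (J : Finset ι) (κ₂ n : ι → ℕ) (cl : ι → ℕ → ℕ) {I D : ℕ} {Ir : ℕ → ℕ}
    (hD : 0 < D) (hF0 : P.F 0 = P.M' * D) (hn : ∀ c ∈ J, P.M' * P.L0 ∣ n c)
    (hIr : ∀ c ∈ J, ∀ r ≤ P.h, ∀ x, (((range I).image (fun i => cl c i % D)).filter
      (fun y => y % (P.F' r / P.M') = x % (P.F' r / P.M'))).card ≤ Ir r)
    {ρ Γ : ℝ} (hρ : 0 ≤ ρ)
    (hA : ∀ r < P.h, 80 * I * P.A r * P.p r 0 * P.p r 2 * Real.sqrt (P.q r 1) ≤ ρ * P.q r 1)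
    (hB : ∀ r < P.h, 1 ≤ r → Ir r * P.A r * P.pc r ≤ ρ)
    (hL : ∀ c ∈ J, PP P (nT I (P.M' * P.L0) D (κ₂ c) (n c) (cl c))
      (XT I (P.M' * P.L0) D (κ₂ c) (n c) (cl c)) B B' * P.A P.h * P.pc P.h ≤ ρ)
    (hΓ : ∀ r < P.h, (P.q r 0 * P.q r 1 : ℕ) * (P.W r * P.q r 1) ≤ Γ) (hΓ' : P.W P.h ≤ Γ)
    {m : ℕ} (hm : 1 ≤ m) :
    PrG Mk K (fun w => ∃ c ∈ J, Many P w (nT I (P.M' * P.L0) D (κ₂ c) (n c) (cl c))
      (XT I (P.M' * P.L0) D (κ₂ c) (n c) (cl c)) B B' ((m + 1) ^ 2 ^ (4 * P.h)))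
      (J.card * ((3 * P.h + 1) * Γ * ρ ^ (m + 1))) := by
  have h1 := PrG_exists (Mk := Mk) (K := K) J
    (B := fun c w => Many P w (nT I (P.M' * P.L0) D (κ₂ c) (n c) (cl c))
      (XT I (P.M' * P.L0) D (κ₂ c) (n c) (cl c)) B B' ((m + 1) ^ 2 ^ (4 * P.h)))
    (ε := fun _ => (3 * P.h + 1) * Γ * ρ ^ (m + 1)) ?_
  · rw [Finset.sum_const, nsmul_eq_mul] at h1
    exact h1
  · intro c hc
    refine static_block hP (tg_XT hP hD hF0 (hn c hc) (hIr c hc)) hMk hK B B' hρ ?_ hB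
      (hL c hc) hΓ hΓ' hm
    intro r hr
    refine le_trans ?_ (hA r hr)
    have h2 : ((nT I (P.M' * P.L0) D (κ₂ c) (n c) (cl c) : ℕ) : ℝ) ≤ I := by
      exact_mod_cast nT_le _ _ _ _ _ _
    have h3 := Pr.A_nonneg P r
    gcongr

/-- **SL-U.**  The windows `Bw w`, `Bw' w` depend on the keys of `K0`; outside the bad event `A`
of these keys they are good. -/
theorem sl_union (hP : P.Ok Mk) (hMk : ∀ k, 0 < Mk k) {K0 K : Finset κ} (hK0 : K0 ⊆ K)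
    (hK : ∀ r < P.h, ∀ i, ∀ y ∈ P.Y r, P.key r i y ∈ K \ K0 ∧ P.key' r i y ∈ K \ K0)
    (Bw Bw' U U' : (κ → ℕ) → Finset ℕ)
    (hdep : ∀ w w' : κ → ℕ, (∀ k ∈ K0, w k = w' k) → Bw w = Bw w' ∧ Bw' w = Bw' w')
    (hU : ∀ w, Rep P (cU hP w) P.M (Bw w) (U w))
    (hU' : ∀ w, Rep P (cU' hP w) P.M' (Bw' w) (U' w))
    {ι : Type*} (J : Finset ι) (κ₂ n : ι → ℕ) (cl : ι → ℕ → ℕ) {I D C1 R0 : ℕ} {Ir : ℕ → ℕ}
    (hD : 0 < D) (hF0 : P.F 0 = P.M' * D) (hn : ∀ c ∈ J, P.M' * P.L0 ∣ n c)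
    (hC1 : ∀ c ∈ J, ∀ x, ((range I).filter (fun i => cl c i % D = x)).card ≤ C1)
    (hIr : ∀ c ∈ J, ∀ r ≤ P.h, ∀ x, (((range I).image (fun i => cl c i % D)).filter
      (fun y => y % (P.F' r / P.M') = x % (P.F' r / P.M'))).card ≤ Ir r)
    {ρ Γ δ : ℝ} (hρ : 0 ≤ ρ)
    (hA : ∀ r < P.h, 80 * I * P.A r * P.p r 0 * P.p r 2 * Real.sqrt (P.q r 1) ≤ ρ * P.q r 1)
    (hB : ∀ r < P.h, 1 ≤ r → Ir r * P.A r * P.pc r ≤ ρ)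
    (hΓ : ∀ r < P.h, (P.q r 0 * P.q r 1 : ℕ) * (P.W r * P.q r 1) ≤ Γ) (hΓ' : P.W P.h ≤ Γ)
    {A : (κ → ℕ) → Prop} (hbad : PrG Mk K0 A δ)
    (hgood : ∀ w : κ → ℕ, (∀ k, w k < Mk k) → ¬ A w →
      (∀ c ∈ J, PP P (nT I (P.M' * P.L0) D (κ₂ c) (n c) (cl c))
        (XT I (P.M' * P.L0) D (κ₂ c) (n c) (cl c)) (Bw w) (Bw' w) * P.A P.h * P.pc P.h ≤ ρ) ∧
      ∀ t, ((Bw w ×ˢ Bw' w).filter
        (fun q => P.M * P.L P.h * q.1 + P.M' * P.L P.h * q.2 = t)).card ≤ R0)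
    {m : ℕ} (hm : 1 ≤ m) :
    PrG Mk K (fun w => ∃ c ∈ J, C1 * ((m + 1) ^ 2 ^ (4 * P.h) * (Cd P * R0)) <
      cN (U w) (U' w) I (P.M' * P.L0) D (cl c) (κ₂ c) (n c))
      (δ + J.card * ((3 * P.h + 1) * Γ * ρ ^ (m + 1))) := by
  have hΓ0 : 0 ≤ Γ := by
    refine le_trans ?_ hΓ'
    unfold Pr.W
    exact Finset.prod_nonneg (fun _ _ => by positivity)
  refine PrG_cond_bad hK0 (by positivity) hbad ?_
  intro r0 hr0 hnA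
  obtain ⟨hL, hR0⟩ := hgood _ (fun k => ext_lt hMk hr0 k) hnA
  refine PrG_mono ?_ le_rfl (many_union hP hMk hK (Bw (ext K0 r0)) (Bw' (ext K0 r0)) J κ₂ n cl
    hD hF0 hn hIr hρ hA hB hL hΓ hΓ' hm)
  rintro r1 hr1 ⟨c, hc, hlt⟩
  refine ⟨c, hc, ?_⟩
  by_contra hnM
  set w' := glue K0 (ext K0 r0) (ext (K \ K0) r1) with hw'
  obtain ⟨e1, e2⟩ := hdep w' (ext K0 r0) (fun k hk => glue_mem _ _ _ hk)
  have hU1 := hU w'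
  have hU2 := hU' w'
  rw [e1] at hU1
  rw [e2] at hU2
  have hnM' : ¬ Many P w' (nT I (P.M' * P.L0) D (κ₂ c) (n c) (cl c))
      (XT I (P.M' * P.L0) D (κ₂ c) (n c) (cl c)) (Bw (ext K0 r0)) (Bw' (ext K0 r0))
      ((m + 1) ^ 2 ^ (4 * P.h)) := by
    intro hM
    apply hnM
    refine many_congr (fun r hr i y hy => ?_) hM
    obtain ⟨k1, k2⟩ := hK r hr i y hy
    refine ⟨?_, ?_⟩
    · rw [hw', glue_not_mem _ _ _ (Finset.mem_sdiff.1 k1).2]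
    · rw [hw', glue_not_mem _ _ _ (Finset.mem_sdiff.1 k2).2]
  exact absurd (link hP w' hU1 hU2 (hC1 c hc) hR0 hnM') (not_le.2 hlt)

end Pool.Agent.Helper39.SL
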