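import Pool.Agent.Helper39.SL.Union

/-!
# T5, block SL: union over the contexts, the pair of towers depends on the context
-/

set_option autoImplicit false

namespace Pool.Agent.Helper39.SL

open Finset Pool.Agent.Helper27.T4 Pool.Agent.Helper29.T4 Pool.Agent.Helper22.HW
  Pool.Agent.Helper22.SL Pool.Agent.Helper57.T5

variable {κ : Type*} {Mk : κ → ℕ} [DecidableEq κ]

/-- **SL-U for a family of pairs.**  The windows `Bw w`, `Bw' w` depend on the keys of `K0`; outside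
the bad event `A` of these keys they are good.  The pair `P c` of towers over these windows depends
on the context `c`. -/
theorem sl_union_fam {ι : Type*} (J : Finset ι) (P : ι → Pr κ) {h0 : ℕ}
    (hP : ∀ c, c ∈ J → (P c).Ok Mk) (hh : ∀ c, (P c).h = h0)
    (hMk : ∀ k, 0 < Mk k) {K0 K : Finset κ} (hK0 : K0 ⊆ K)
    (hK : ∀ c ∈ J, ∀ r < (P c).h, ∀ i, ∀ y ∈ (P c).Y r,
      (P c).key r i y ∈ K \ K0 ∧ (P c).key' r i y ∈ K \ K0)
    (Bw Bw' : (κ → ℕ) → Finset ℕ) (U U' : ι → (κ → ℕ) → Finset ℕ)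
    (hdep : ∀ w w' : κ → ℕ, (∀ k ∈ K0, w k = w' k) → Bw w = Bw w' ∧ Bw' w = Bw' w')
    (hU : ∀ c (hc : c ∈ J) w, Rep (P c) (cU (hP c hc) w) (P c).M (Bw w) (U c w))
    (hU' : ∀ c (hc : c ∈ J) w, Rep (P c) (cU' (hP c hc) w) (P c).M' (Bw' w) (U' c w))
    (κ₂ n : ι → ℕ) (cl : ι → ℕ → ℕ) {I D C1 R0 : ℕ} {Ir : ι → ℕ → ℕ}
    (hD : 0 < D) (hF0 : ∀ c ∈ J, (P c).F 0 = (P c).M' * D)
    (hn : ∀ c ∈ J, (P c).M' * (P c).L0 ∣ n c)
    (hC1 : ∀ c ∈ J, ∀ x, ((range I).filter (fun i => cl c i % D = x)).card ≤ C1)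
    (hIr : ∀ c ∈ J, ∀ r ≤ (P c).h, ∀ x, (((range I).image (fun i => cl c i % D)).filter
      (fun y => y % ((P c).F' r / (P c).M') = x % ((P c).F' r / (P c).M'))).card ≤ Ir c r)
    {ρ Γ δ : ℝ} (hρ : 0 ≤ ρ) (hΓ0 : 0 ≤ Γ)
    (hA : ∀ c ∈ J, ∀ r < (P c).h, 80 * I * (P c).A r * (P c).p r 0 * (P c).p r 2 *
      Real.sqrt ((P c).q r 1) ≤ ρ * (P c).q r 1)
    (hB : ∀ c ∈ J, ∀ r < (P c).h, 1 ≤ r → Ir c r * (P c).A r * (P c).pc r ≤ ρ)
    (hΓ : ∀ c ∈ J, ∀ r < (P c).h,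
      ((P c).q r 0 * (P c).q r 1 : ℕ) * ((P c).W r * (P c).q r 1) ≤ Γ)
    (hΓ' : ∀ c ∈ J, (P c).W (P c).h ≤ Γ)
    {A : (κ → ℕ) → Prop} (hbad : PrG Mk K0 A δ)
    (hgood : ∀ w : κ → ℕ, (∀ k, w k < Mk k) → ¬ A w → ∀ c ∈ J,
      PP (P c) (nT I ((P c).M' * (P c).L0) D (κ₂ c) (n c) (cl c))
        (XT I ((P c).M' * (P c).L0) D (κ₂ c) (n c) (cl c)) (Bw w) (Bw' w) * (P c).A (P c).h *
          (P c).pc (P c).h ≤ ρ ∧
      ∀ t, ((Bw w ×ˢ Bw' w).filter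
        (fun q => (P c).M * (P c).L (P c).h * q.1 + (P c).M' * (P c).L (P c).h * q.2 = t)).card
          ≤ R0)
    {m : ℕ} (hm : 1 ≤ m) :
    PrG Mk K (fun w => ∃ c ∈ J, C1 * ((m + 1) ^ 2 ^ (4 * h0) * (Cd (P c) * R0)) <
      cN (U c w) (U' c w) I ((P c).M' * (P c).L0) D (cl c) (κ₂ c) (n c))
      (δ + J.card * ((3 * h0 + 1) * Γ * ρ ^ (m + 1))) := by
  refine PrG_cond_bad hK0 (by positivity) hbad ?_
  intro r0 hr0 hnA
  have hgd := hgood _ (fun k => ext_lt hMk hr0 k) hnA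
  have h1 := PrG_exists (Mk := Mk) (K := K \ K0) J
    (B := fun c w => Many (P c) w (nT I ((P c).M' * (P c).L0) D (κ₂ c) (n c) (cl c))
      (XT I ((P c).M' * (P c).L0) D (κ₂ c) (n c) (cl c)) (Bw (ext K0 r0)) (Bw' (ext K0 r0))
      ((m + 1) ^ 2 ^ (4 * (P c).h)))
    (ε := fun _ => (3 * h0 + 1) * Γ * ρ ^ (m + 1)) ?_
  · rw [Finset.sum_const, nsmul_eq_mul] at h1
    refine PrG_mono ?_ le_rfl h1
    rintro r1 hr1 ⟨c, hc, hlt⟩
    refine ⟨c, hc, ?_⟩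
    by_contra hnM
    set w' := glue K0 (ext K0 r0) (ext (K \ K0) r1) with hw'
    obtain ⟨e1, e2⟩ := hdep w' (ext K0 r0) (fun k hk => glue_mem _ _ _ hk)
    have hU1 := hU c hc w'
    have hU2 := hU' c hc w'
    rw [e1] at hU1
    rw [e2] at hU2
    have hnM' : ¬ Many (P c) w' (nT I ((P c).M' * (P c).L0) D (κ₂ c) (n c) (cl c))
        (XT I ((P c).M' * (P c).L0) D (κ₂ c) (n c) (cl c)) (Bw (ext K0 r0)) (Bw' (ext K0 r0))
        ((m + 1) ^ 2 ^ (4 * (P c).h)) := by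
      intro hM
      apply hnM
      refine many_congr (fun r hr i y hy => ?_) hM
      obtain ⟨k1, k2⟩ := hK c hc r hr i y hy
      refine ⟨?_, ?_⟩
      · rw [hw', glue_not_mem _ _ _ (Finset.mem_sdiff.1 k1).2]
      · rw [hw', glue_not_mem _ _ _ (Finset.mem_sdiff.1 k2).2]
    have h2 := link (hP c hc) w' hU1 hU2 (hC1 c hc) (hgd c hc).2 hnM'
    rw [hh c] at h2
    exact absurd h2 (not_le.2 hlt)
  · intro c hc
    have h2 := static_block (hP c hc)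
      (tg_XT (hP c hc) hD (hF0 c hc) (hn c hc) (hIr c hc)) hMk (hK c hc) (Bw (ext K0 r0))
      (Bw' (ext K0 r0)) hρ ?_ (hB c hc) (hgd c hc).1 (hΓ c hc) (hΓ' c hc) hm
    · rw [hh c] at h2
      rw [hh c]
      exact h2
    · intro r hr
      refine le_trans ?_ (hA c hc r hr)
      have h3 : ((nT I ((P c).M' * (P c).L0) D (κ₂ c) (n c) (cl c) : ℕ) : ℝ) ≤ I := by
        exact_mod_cast nT_le _ _ _ _ _ _
      have h4 := Pr.A_nonneg (P c) r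
      gcongr

end Pool.Agent.Helper39.SL
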