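import Pool.Agent.Helper22.SL.Defs
import Pool.Agent.Helper57.T5.Tower

/-!
# T5, block SL: the link between the counting form `cN` and `Many`
-/

namespace Pool.Agent.Helper39.SL

open Finset Pool.Agent.Helper27.T4 Pool.Agent.Helper29.T4 Pool.Agent.Helper22.HW
  Pool.Agent.Helper22.SL Pool.Agent.Helper57.T5

variable {κ : Type*} {Mk : κ → ℕ} {P : Pr κ}

/-- code of the level `r`, upper state -/
noncomputable def cU (hP : P.Ok Mk) (w : κ → ℕ) (r : ℕ) (y : Fin 3 → ℕ) : ℕ :=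
  (P.S r).cd (hP.prime r) (hP.inj r) w y

/-- code of the level `r`, lower state -/
noncomputable def cU' (hP : P.Ok Mk) (w : κ → ℕ) (r : ℕ) (y : Fin 3 → ℕ) : ℕ :=
  (P.S' r).cd (hP.prime r) (hP.inj r) w y

/-- the elements of `U` are sums of the codes of the levels `< h` and a window element -/
def Rep (P : Pr κ) (c : ℕ → (Fin 3 → ℕ) → ℕ) (M : ℕ) (B U : Finset ℕ) : Prop :=
  ∀ u ∈ U, ∃ y : ℕ → Fin 3 → ℕ, (∀ r < P.h, y r ∈ P.Y r) ∧ ∃ b ∈ B,
    u = ∑ r ∈ range P.h, c r (y r) + M * P.L P.h * b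

theorem L_succ (P : Pr κ) (r : ℕ) : P.L (r + 1) = P.L r * P.Q r := by
  unfold Pr.L
  rw [prod_range_succ, mul_assoc]

theorem L_dvd (P : Pr κ) {r s : ℕ} (h : r ≤ s) : P.L r ∣ P.L s :=
  Nat.mul_dvd_mul_left _ (Finset.prod_dvd_prod_of_subset _ _ _ (range_subset_range.2 h))

theorem L_zero (P : Pr κ) : P.L 0 = P.L0 := by simp [Pr.L]

theorem LL_dvd_L (P : Pr κ) (r : ℕ) : LL P.Q r ∣ P.L r := by
  unfold Pr.L LL
  exact dvd_mul_left _ _

theorem Q_pos (hP : P.Ok Mk) (r : ℕ) : 0 < P.Q r := NN_pos (hP.prime r) _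

theorem L_pos (hP : P.Ok Mk) (r : ℕ) : 0 < P.L r :=
  Nat.mul_pos hP.posL (Finset.prod_pos (fun t _ => Q_pos hP t))

theorem cU_lt (hP : P.Ok Mk) (w : κ → ℕ) {r : ℕ} (hr : r < P.h) (y : Fin 3 → ℕ) :
    cU hP w r y < P.F (r + 1) * P.L (r + 1) := by
  rw [L_succ, ← mul_assoc]
  exact fc_lt (hP.prime r) (hP.inj r) _ (hP.sok r hr).pos _ _

theorem cU'_lt (hP : P.Ok Mk) (w : κ → ℕ) {r : ℕ} (hr : r < P.h) (y : Fin 3 → ℕ) :
    cU' hP w r y < P.F' (r + 1) * P.L (r + 1) := by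
  rw [L_succ, ← mul_assoc]
  exact fc_lt (hP.prime r) (hP.inj r) _ (hP.sok' r hr).pos _ _

theorem dvd_cU (hP : P.Ok Mk) (w : κ → ℕ) (r : ℕ) (y : Fin 3 → ℕ) :
    P.F (r + 1) * P.L r ∣ cU hP w r y :=
  dvd_fc (hP.prime r) (hP.inj r) _ _ _

theorem dvd_cU' (hP : P.Ok Mk) (w : κ → ℕ) (r : ℕ) (y : Fin 3 → ℕ) :
    P.F' (r + 1) * P.L r ∣ cU' hP w r y :=
  dvd_fc (hP.prime r) (hP.inj r) _ _ _

theorem cast_cU (hP : P.Ok Mk) (w : κ → ℕ) {r : ℕ} (hr : r < P.h) (y : Fin 3 → ℕ) (i : Fin 3) :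
    ((cU hP w r y : ℕ) : ZMod (P.p r i ^ P.z r i)) =
      Lg (P.p r i) (P.z r i) (y i) + ((w (P.key r i y) : ℕ) : ZMod (P.p r i ^ P.z r i)) :=
  fc_cast (hP.prime r) (hP.inj r) _ (hP.sok r hr).cop _ _ i

theorem cast_cU' (hP : P.Ok Mk) (w : κ → ℕ) {r : ℕ} (hr : r < P.h) (y : Fin 3 → ℕ) (i : Fin 3) :
    ((cU' hP w r y : ℕ) : ZMod (P.p r i ^ P.z r i)) =
      Lg (P.p r i) (P.z r i) (y i) + ((w (P.key' r i y) : ℕ) : ZMod (P.p r i ^ P.z r i)) :=
  fc_cast (hP.prime r) (hP.inj r) _ (hP.sok' r hr).cop _ _ i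

/-- the data of a label and two vectors -/
noncomputable def mkD (hP : P.Ok Mk) (w : κ → ℕ) (i : ℕ) (y y' : ℕ → Fin 3 → ℕ) : Dt :=
  (i, fun r => ((y r, y' r), (cU hP w r (y r), cU' hP w r (y' r))))

/-- the targets of the data -/
theorem TT_mkD (hP : P.Ok Mk) (w : κ → ℕ) (X : ℕ → ℕ) (i : ℕ) (y y' : ℕ → Fin 3 → ℕ) {T : ℕ}
    (hX : X i = ∑ r ∈ range P.h, (cU hP w r (y r) + cU' hP w r (y' r)) + T) :
    ∀ r ≤ P.h, TT X (mkD hP w i y y') r =
      ∑ s ∈ Ico r P.h, (cU hP w s (y s) + cU' hP w s (y' s)) + T := by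
  intro r
  induction r with
  | zero =>
    intro _
    show X i = _
    rw [hX, ← Finset.range_eq_Ico]
  | succ r ih =>
    intro hr
    show TT X (mkD hP w i y y') r - (cU hP w r (y r) + cU' hP w r (y' r)) = _
    rw [ih (by omega), Finset.sum_eq_sum_Ico_succ_bot (by omega : r < P.h)]
    omega

/-- **a solution is a hit** -/
theorem hit_mkD (hP : P.Ok Mk) (w : κ → ℕ) {X : ℕ → ℕ} {I i : ℕ} (hi : i < I)
    {y y' : ℕ → Fin 3 → ℕ} (hy : ∀ r < P.h, y r ∈ P.Y r) (hy' : ∀ r < P.h, y' r ∈ P.Y r)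
    {B B' : Finset ℕ} {b b' : ℕ} (hb : b ∈ B) (hb' : b' ∈ B')
    (hX : X i = ∑ r ∈ range P.h, (cU hP w r (y r) + cU' hP w r (y' r)) +
      (P.M * P.L P.h * b + P.M' * P.L P.h * b')) :
    Hit P w I X B B' (mkD hP w i y y', (b, b')) := by
  have hTT := TT_mkD hP w X i y y' hX
  refine ⟨hi, ?_, hb, hb', ?_⟩
  · intro t ht
    have e1 := hTT t (by omega)
    have e2 := hTT (t + 1) (by omega)
    rw [Finset.sum_eq_sum_Ico_succ_bot ht] at e1
    have e3 : TT X (mkD hP w i y y') t - (cU hP w t (y t) + cU' hP w t (y' t)) =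
        ∑ s ∈ Ico (t + 1) P.h, (cU hP w s (y s) + cU' hP w s (y' s)) +
        (P.M * P.L P.h * b + P.M' * P.L P.h * b') := e2
    refine ⟨hy t ht, hy' t ht, cU_lt hP w ht _, cU'_lt hP w ht _, dvd_cU hP w t _,
      dvd_cU' hP w t _, fun i _ => cast_cU hP w ht _ i, fun i _ => cast_cU' hP w ht _ i, ?_, ?_⟩
    · show cU hP w t (y t) + cU' hP w t (y' t) ≤ TT X (mkD hP w i y y') t
      rw [e1]
      omega
    · show P.M' * P.L (t + 1) ∣ TT X (mkD hP w i y y') t - (cU hP w t (y t) + cU' hP w t (y' t))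
      rw [e3]
      refine dvd_add (Finset.dvd_sum (fun s hs => ?_)) (dvd_add ?_ ?_)
      · have hs' := mem_Ico.1 hs
        have hsh : s + 1 ≤ P.h := by omega
        refine dvd_add ?_ ?_
        · exact (Nat.mul_dvd_mul (((hP.M'F' (s + 1) hsh)).trans (hP.F'F (s + 1) hsh))
            (L_dvd P hs'.1)).trans (dvd_cU hP w s _)
        · exact (Nat.mul_dvd_mul (hP.M'F' (s + 1) hsh) (L_dvd P hs'.1)).trans (dvd_cU' hP w s _)
      · exact (Nat.mul_dvd_mul hP.M'M (L_dvd P ht)).trans (dvd_mul_right _ _)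
      · exact (Nat.mul_dvd_mul_left _ (L_dvd P ht)).trans (dvd_mul_right _ _)
  · show P.M * P.L P.h * b + P.M' * P.L P.h * b' = TT X (mkD hP w i y y') P.h
    rw [hTT P.h le_rfl, Finset.Ico_self, Finset.sum_empty, zero_add]

/-- **S16, first half**: not `Many` bounds the number of solutions. -/
theorem link_count (hP : P.Ok Mk) (w : κ → ℕ) {I N R1 : ℕ} {X : ℕ → ℕ} {B B' U U' : Finset ℕ}
    (hU : Rep P (cU hP w) P.M B U) (hU' : Rep P (cU' hP w) P.M' B' U')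
    (hleaf : ∀ n, ((U ×ˢ U').filter (fun t => t.1 + t.2 = n)).card ≤ R1)
    (hN : ¬ Many P w I X B B' N) :
    ((range I ×ˢ (U ×ˢ U')).filter (fun t => t.2.1 + t.2.2 = X t.1)).card ≤ N * R1 := by
  classical
  set G := (range I ×ˢ (U ×ˢ U')).filter (fun t => t.2.1 + t.2.2 = X t.1) with hG
  set Lb := G.image (fun t => t.1) with hLb
  have h1 : G.card ≤ R1 * Lb.card := by
    refine Finset.card_le_mul_card_image_of_maps_to (f := fun t : ℕ × (ℕ × ℕ) => t.1)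
      (fun t ht => mem_image_of_mem _ ht) R1 ?_
    intro i _
    refine le_trans (card_le_card_of_injOn (fun t : ℕ × (ℕ × ℕ) => t.2) ?_ ?_) (hleaf (X i))
    · intro t ht
      simp only [hG, coe_filter, mem_filter, mem_product, mem_range, Set.mem_ofPred_eq] at ht ⊢
      obtain ⟨⟨⟨_, hu, hu'⟩, he⟩, rfl⟩ := ht
      exact ⟨⟨hu, hu'⟩, he⟩
    · intro t ht t' ht' h
      simp only [hG, coe_filter, mem_filter, Set.mem_ofPred_eq] at ht ht'
      exact Prod.ext (ht.2.trans ht'.2.symm) h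
  have h2 : Lb.card ≤ N := by
    by_contra hc
    push Not at hc
    apply hN
    obtain ⟨L', hL', hLc⟩ := Finset.exists_subset_card_eq hc.le
    -- a hit for every label
    have hex : ∀ i ∈ L', ∃ x : Dt × (ℕ × ℕ), Hit P w I X B B' x ∧ x.1.1 = i := by
      intro i hi
      have hi' := hL' hi
      rw [hLb, mem_image] at hi'
      obtain ⟨t, ht, rfl⟩ := hi'
      simp only [hG, mem_filter, mem_product, mem_range] at ht
      obtain ⟨⟨hi, hu, hu'⟩, he⟩ := ht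
      obtain ⟨y, hy, b, hb, hub⟩ := hU _ hu
      obtain ⟨y', hy', b', hb', hub'⟩ := hU' _ hu'
      refine ⟨(mkD hP w t.1 y y', (b, b')), ?_, rfl⟩
      refine hit_mkD hP w hi hy hy' hb hb' ?_
      rw [← he, hub, hub', Finset.sum_add_distrib]
      ring
    choose! f hf using hex
    refine ⟨L'.image f, ?_, ?_, ?_⟩
    · rw [card_image_of_injOn, hLc]
      intro i hi j hj hij
      rw [← (hf i hi).2, ← (hf j hj).2, hij]
    · intro x hx
      obtain ⟨i, hi, rfl⟩ := mem_image.1 hx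
      exact (hf i hi).1
    · intro x hx x' hx' h
      obtain ⟨i, hi, rfl⟩ := mem_image.1 hx
      obtain ⟨j, hj, rfl⟩ := mem_image.1 hx'
      rw [(hf i hi).2, (hf j hj).2] at h
      rw [h]
  calc G.card ≤ R1 * Lb.card := h1
    _ ≤ R1 * N := Nat.mul_le_mul_left _ h2
    _ = N * R1 := Nat.mul_comm _ _

/-- **the leaf bound**: for a fixed sum all static codes decode, the windows have at most `R0`
pairs. -/
theorem leaf_bound (hP : P.Ok Mk) (w : κ → ℕ) {R0 : ℕ} {B B' U U' : Finset ℕ}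
    (hU : Rep P (cU hP w) P.M B U) (hU' : Rep P (cU' hP w) P.M' B' U')
    (hdec : ∀ r < P.h, Dec (P.Y r) (P.Y r) (cU hP w r) (cU' hP w r) (P.Q r)
      (∏ i, (2 * (P.p r i - 1))))
    (hR0 : ∀ n, ((B ×ˢ B').filter
      (fun t => P.M * P.L P.h * t.1 + P.M' * P.L P.h * t.2 = n)).card ≤ R0) (n : ℕ) :
    ((U ×ˢ U').filter (fun t => t.1 + t.2 = n)).card ≤
      (∏ r ∈ range P.h, ∏ i, (2 * (P.p r i - 1))) * R0 := by
  classical
  -- representation of a solution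
  set β := (Fin 3 → ℕ) × (Fin 3 → ℕ)
  set Yp : ℕ → Finset β := fun r => P.Y r ×ˢ P.Y r with hYp
  set σ : ℕ → β → ℕ := fun r q => cU hP w r q.1 + cU' hP w r q.2 with hσ
  set C := (Fintype.piFinset (fun t : Fin P.h => Yp t)).filter
      (fun y => ∑ t : Fin P.h, σ t (y t) ≡ n [MOD LL P.Q P.h]) with hC
  have hCc : C.card ≤ ∏ r ∈ range P.h, ∏ i, (2 * (P.p r i - 1)) := by
    refine tower_dec Yp σ P.Q (fun r => ∏ i, (2 * (P.p r i - 1))) P.h ?_ ?_ n
    · intro t ht q _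
      have hh : t + 1 ≤ P.h := ht
      refine dvd_add ?_ ?_
      · exact ((LL_dvd_L P t).trans (dvd_mul_left _ _)).trans (dvd_cU hP w t _)
      · exact ((LL_dvd_L P t).trans (dvd_mul_left _ _)).trans (dvd_cU' hP w t _)
    · intro t ht T
      exact hdec t ht T
  set W := C.biUnion (fun y => ((B ×ˢ B').filter (fun t =>
      P.M * P.L P.h * t.1 + P.M' * P.L P.h * t.2 = n - ∑ t : Fin P.h, σ t (y t))).image
      (fun t => ((∑ r : Fin P.h, cU hP w r (y r).1 + P.M * P.L P.h * t.1,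
        ∑ r : Fin P.h, cU' hP w r (y r).2 + P.M' * P.L P.h * t.2) : ℕ × ℕ))) with hW
  have h1 : W.card ≤ C.card * R0 := by
    refine card_biUnion_le.trans ?_
    refine (Finset.sum_le_card_nsmul _ _ R0 (fun q _ => card_image_le.trans (hR0 _))).trans ?_
    rw [smul_eq_mul]
  refine le_trans (card_le_card ?_) (h1.trans (Nat.mul_le_mul_right _ hCc))
  rintro ⟨u, u'⟩ h
  rw [mem_filter, mem_product] at h
  obtain ⟨⟨hu, hu'⟩, he⟩ := h
  simp only at hu hu' he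
  obtain ⟨y, hy, b, hb, rfl⟩ := hU _ hu
  obtain ⟨y', hy', b', hb', rfl⟩ := hU' _ hu'
  have hsum : ∑ t : Fin P.h, σ t ((fun t : Fin P.h => (y t, y' t)) t) +
      (P.M * P.L P.h * b + P.M' * P.L P.h * b') = n := by
    rw [← he]
    simp only [hσ]
    rw [Finset.sum_add_distrib, Finset.sum_range, Finset.sum_range]
    ring
  rw [hW, mem_biUnion]
  refine ⟨fun t : Fin P.h => (y t, y' t), ?_, ?_⟩
  · rw [hC, mem_filter, Fintype.mem_piFinset]
    refine ⟨fun t => mem_product.2 ⟨hy t t.2, hy' t t.2⟩, ?_⟩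
    have h2 : LL P.Q P.h ∣ (P.M * P.L P.h * b + P.M' * P.L P.h * b') :=
      (LL_dvd_L P P.h).trans (dvd_add ((dvd_mul_left _ _).trans (dvd_mul_right _ _))
        ((dvd_mul_left _ _).trans (dvd_mul_right _ _)))
    have h3 := Nat.ModEq.add_left (∑ t : Fin P.h, σ t ((fun t : Fin P.h => (y t, y' t)) t))
      ((Nat.modEq_zero_iff_dvd).2 h2)
    rw [hsum, add_zero] at h3
    exact h3.symm
  · rw [mem_image]
    refine ⟨(b, b'), ?_, ?_⟩
    · rw [mem_filter, mem_product]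
      refine ⟨⟨hb, hb'⟩, ?_⟩
      simp only at hsum ⊢
      omega
    · rw [Finset.sum_range, Finset.sum_range]

end Pool.Agent.Helper39.SL
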